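import Pool.Agent.H17.Mix.Trans

/-! Transitive actions: the theorem. -/

set_option autoImplicit false

open Topology Filter

namespace Pool.Agent.H17.Mix

universe u v

variable {G : Type u} [Group G] {X : Type v} [MulAction G X]

theorem primeSteps_inj [Fintype G] (π : Set ℕ) (hπ : ∀ p ∈ π, p.Prime) (ε : ℝ)
    (h2 : ε < 1 / 2) (N : Subgroup G) [N.Normal] (hp : ∀ p ∈ π, ¬ p ∣ N.index) :
    ∀ x ∈ PrimeSteps G π ε, ∀ z ∈ Inv N, x * z = 0 → z = 0 := by
  have hidx : N.index ≠ 0 := Subgroup.index_ne_zero_of_finite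
  rintro x (⟨g, q, h0, h1, rfl⟩ | ⟨g, p, hpπ, rfl⟩) z hz hxz
  · exact lazy_inj hidx (hz _ (Subgroup.pow_index_mem N g)) h0 (by linarith)
      (Or.inl (by linarith)) hxz
  · exact powers_inj (hπ p hpπ).ne_zero
      ((Nat.Prime.coprime_iff_not_dvd (hπ p hpπ)).2 (hp p hpπ)) hidx
      (hz _ (Subgroup.pow_index_mem N g)) hxz

theorem law_uniform_of_transitive [Fintype G] [Fintype X] (N : Subgroup G) (x₀ : X)
    (hN : ∀ y : X, ∃ n ∈ N, n • x₀ = y) (y : X) :
    law ((Nat.card N : ℝ)⁻¹ • ∑ᶠ n : N, MonoidAlgebra.of ℝ G (n : G)) x₀ y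
      = 1 / (Fintype.card X : ℝ) := by
  classical
  rw [finsum_eq_sum_of_fintype, law_smul, law_sum]
  simp only [law_of]
  set K : ℝ := ∑ n : N, if (n : G) • x₀ = x₀ then (1 : ℝ) else 0 with hK
  have h1 : ∀ y : X, (∑ n : N, if (n : G) • x₀ = y then (1 : ℝ) else 0) = K := by
    intro y
    obtain ⟨m, hm, rfl⟩ := hN y
    rw [hK]
    refine (Fintype.sum_equiv (Equiv.mulLeft (⟨m, hm⟩ : N)) _ _ fun n => ?_).symm
    simp only [Equiv.coe_mulLeft, Subgroup.coe_mul, mul_smul, smul_left_cancel_iff]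
  have h2 : ∑ y : X, (∑ n : N, if (n : G) • x₀ = y then (1 : ℝ) else 0) = Nat.card N := by
    rw [Finset.sum_comm]
    simp
  simp only [h1, Finset.sum_const, Finset.card_univ, nsmul_eq_mul] at h2
  rw [h1]
  have hX : (Fintype.card X : ℝ) ≠ 0 := by
    have : Nonempty X := ⟨x₀⟩
    exact_mod_cast Fintype.card_ne_zero
  have hNc : (Nat.card N : ℝ) ≠ 0 := by exact_mod_cast Nat.card_pos.ne'
  rw [← h2] at hNc ⊢
  have hK0 : K ≠ 0 := right_ne_zero_of_mul hNc
  field_simp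

theorem primeSteps_transitive [Fintype G] [Fintype X] [MulAction.IsPretransitive G X]
    (π : Set ℕ) (hπ : ∀ p ∈ π, p.Prime) (ε : ℝ) (hε : 0 < ε) (h2 : ε < 1 / 2) (x₀ : X) :
    (∃ s ∈ Submonoid.closure (PrimeSteps G π ε),
      ∀ y, law s x₀ y = 1 / (Fintype.card X : ℝ)) ↔
      ∀ N : Subgroup G, N.Normal → (∀ p ∈ π, ¬ p ∣ N.index) → ∀ y : X, ∃ n ∈ N, n • x₀ = y := by
  constructor
  · rintro ⟨s, hs, hlaw⟩ N hN hp
    refine transitive_of_inj N (primeSteps_inj π hπ ε h2 N hp) ?_ x₀ s hs hlaw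
    rintro x (⟨g, q, h0, h1, rfl⟩ | ⟨g, p, hpπ, rfl⟩)
    · exact lazy_sum g q
    · exact powers_sum g (hπ p hpπ).ne_zero
  · intro h
    exact ⟨_, exists_Opi_uniform π hπ ε hε h2, law_uniform_of_transitive (Opi G π) x₀
      (h (Opi G π) inferInstance (not_dvd_index_Opi π hπ))⟩

theorem lazyHalf_transitive [Fintype G] [Fintype X] [MulAction.IsPretransitive G X]
    (x₀ : X) (P : Set ℝ) (hP : P ⊆ Set.Icc 0 1) (hhalf : 1 / 2 ∈ P) (ε : ℝ) (hε : 0 < ε)
    (hεP : Set.Icc 0 ε ⊆ P) :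
    (∃ l : List (G × ℝ), (∀ x ∈ l, x.2 ∈ P) ∧
      ∀ y, law ((l.map fun x => lazy x.1 x.2).prod) x₀ y = 1 / (Fintype.card X : ℝ)) ↔
      ∀ N : Subgroup G, N.Normal → Odd N.index → ∀ y : X, ∃ n ∈ N, n • x₀ = y := by
  constructor
  · rintro ⟨l, hl, hlaw⟩ N hN hodd
    refine transitive_of_inj (F := {x : MonoidAlgebra ℝ G | ∃ (g : G), ∃ q ∈ P, x = lazy g q}) N
      ?_ ?_ x₀ _ ?_ hlaw
    · rintro x ⟨g, q, hq, rfl⟩ z hz hxz
      exact lazy_inj Subgroup.index_ne_zero_of_finite (hz _ (Subgroup.pow_index_mem N g))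
        (hP hq).1 (hP hq).2 (Or.inr hodd) hxz
    · rintro x ⟨g, q, hq, rfl⟩
      exact lazy_sum g q
    · refine list_prod_mem fun x hx => ?_
      obtain ⟨y, hy, rfl⟩ := List.mem_map.1 hx
      exact Submonoid.subset_closure ⟨y.1, y.2, hl y hy, rfl⟩
  · intro h
    obtain ⟨s, hs, hlaw⟩ := (primeSteps_transitive (G := G) {2} (by simpa using Nat.prime_two)
      (min ε (1 / 4)) (lt_min hε (by norm_num)) ((min_le_right _ _).trans_lt (by norm_num)) x₀).2
      (fun N hN hp => h N hN (by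
        have := hp 2 rfl
        exact Nat.not_even_iff_odd.1 (fun h => this h.two_dvd)))
    have h3 : s ∈ Submonoid.closure {x : MonoidAlgebra ℝ G | ∃ (g : G), ∃ q ∈ P,
        x = lazy g q} := by
      refine Submonoid.closure_mono ?_ hs
      rintro x (⟨g, q, h0, h1, rfl⟩ | ⟨g, p, hpπ, rfl⟩)
      · exact ⟨g, q, hεP ⟨h0, h1.trans (min_le_left _ _)⟩, rfl⟩
      · obtain rfl : p = 2 := hpπ
        refine ⟨g, 1 / 2, hhalf, ?_⟩
        rw [powers, lazy, Finset.sum_range_succ, Finset.sum_range_one, pow_zero, pow_one, map_one,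
          smul_add]
        norm_num
    suffices H : ∀ x ∈ Submonoid.closure {x : MonoidAlgebra ℝ G | ∃ (g : G), ∃ q ∈ P,
        x = lazy g q}, ∃ l : List (G × ℝ), (∀ x ∈ l, x.2 ∈ P) ∧
          (l.map fun x => lazy x.1 x.2).prod = x by
      obtain ⟨l, hl, hls⟩ := H _ h3
      exact ⟨l, hl, fun y => by rw [hls]; exact hlaw y⟩
    intro x hx
    induction hx using Submonoid.closure_induction with
    | mem x hx =>
      obtain ⟨g, q, hq, rfl⟩ := hx
      exact ⟨[(g, q)], by simpa using hq, by simp⟩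
    | one => exact ⟨[], by simp, by simp⟩
    | mul x y _ _ hx hy =>
      obtain ⟨l, hl, rfl⟩ := hx
      obtain ⟨m, hm, rfl⟩ := hy
      exact ⟨l ++ m, fun x hx => (List.mem_append.1 hx).elim (hl x) (hm x), by simp⟩

end Pool.Agent.H17.Mix
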