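import Pool.Agent.H17.Mix.Core

/-! Necessary conditions; steps of prime length. -/

set_option autoImplicit false

open Topology Filter

namespace Pool.Agent.H17.Mix

universe u

variable {G : Type u} [Group G]

/-- total mass -/
noncomputable def mass [Fintype G] (x : MonoidAlgebra ℝ G) : ℝ := ∑ g, x.coeff g

theorem mul_sum_eq [Fintype G] (x : MonoidAlgebra ℝ G) :
    x * ∑ g, MonoidAlgebra.of ℝ G g = mass x • ∑ g, MonoidAlgebra.of ℝ G g := by
  induction x using MonoidAlgebra.induction_on with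
  | of g =>
    rw [of_mul_sum]
    have : mass (MonoidAlgebra.of ℝ G g) = 1 := by
      classical
      simp [mass, MonoidAlgebra.of_apply, Finsupp.single_apply]
    rw [this, one_smul]
  | add x y hx hy =>
    rw [add_mul, hx, hy, ← add_smul]
    congr 1
    simp [mass, Finset.sum_add_distrib]
  | smul r x hx =>
    rw [smul_mul_assoc, hx, smul_smul]
    congr 1
    simp [mass, Finset.mul_sum]

theorem lazy_sum [Fintype G] (g : G) (q : ℝ) :
    lazy g q * ∑ h, MonoidAlgebra.of ℝ G h = ∑ h, MonoidAlgebra.of ℝ G h := by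
  rw [lazy, add_mul, smul_mul_assoc, smul_mul_assoc, of_mul_sum, one_mul, ← add_smul]
  simp

theorem powers_sum [Fintype G] (g : G) {p : ℕ} (hp : p ≠ 0) :
    powers g p * ∑ h, MonoidAlgebra.of ℝ G h = ∑ h, MonoidAlgebra.of ℝ G h := by
  rw [powers, smul_mul_assoc, Finset.sum_mul]
  simp only [of_mul_sum, Finset.sum_const, Finset.card_range]
  rw [← Nat.cast_smul_eq_nsmul ℝ, smul_smul, inv_mul_cancel₀ (by exact_mod_cast hp), one_smul]

/-- a nonzero vector on which all factors of a product act injectively is not killed -/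
theorem exists_factor {F : Set (MonoidAlgebra ℝ G)} {s : MonoidAlgebra ℝ G}
    (hs : s ∈ Submonoid.closure F) (Z : Set (MonoidAlgebra ℝ G))
    (hZ : ∀ x ∈ F, ∀ z ∈ Z, x * z ∈ Z) :
    ∀ z ∈ Z, z ≠ 0 → s * z = 0 → ∃ x ∈ F, ∃ z ∈ Z, z ≠ 0 ∧ x * z = 0 := by
  have key : ∀ z ∈ Z, s * z ∈ Z ∧
      (z ≠ 0 → s * z = 0 → ∃ x ∈ F, ∃ z ∈ Z, z ≠ 0 ∧ x * z = 0) := by
    induction hs using Submonoid.closure_induction with
    | mem x hx => exact fun z hz => ⟨hZ x hx z hz, fun h1 h2 => ⟨x, hx, z, hz, h1, h2⟩⟩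
    | one => exact fun z hz => ⟨by rwa [one_mul], fun h1 h2 => absurd (by rwa [one_mul] at h2) h1⟩
    | mul x y _ _ hx hy =>
      intro z hz
      obtain ⟨h1, h2⟩ := hy z hz
      obtain ⟨h3, h4⟩ := hx _ h1
      refine ⟨by rwa [mul_assoc], fun h5 h6 => ?_⟩
      by_cases h7 : y * z = 0
      · exact h2 h5 h7
      · exact h4 h7 (by rwa [mul_assoc] at h6)
  exact fun z hz => (key z hz).2

theorem uniform_mul [Fintype G] {v : MonoidAlgebra ℝ G}
    (h : (∑ g, MonoidAlgebra.of ℝ G g) * v = 0) : uniform G * v = 0 := by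
  rw [uniform, smul_mul_assoc, h, smul_zero]

theorem lazy_pow {z : MonoidAlgebra ℝ G} {g : G} {q : ℝ} (h : lazy g q * z = 0) (n : ℕ) :
    q ^ n • (MonoidAlgebra.of ℝ G (g ^ n) * z) = (-(1 - q)) ^ n • z := by
  have h1 : q • (MonoidAlgebra.of ℝ G g * z) = (-(1 - q)) • z := by
    rw [lazy, add_mul, smul_mul_assoc, smul_mul_assoc, one_mul, add_comm] at h
    rw [neg_smul]
    exact eq_neg_of_add_eq_zero_left h
  induction n with
  | zero => rw [pow_zero, pow_zero, pow_zero, map_one, one_mul]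
  | succ n ih =>
    have h2 : MonoidAlgebra.of ℝ G (g ^ (n + 1)) * z
        = MonoidAlgebra.of ℝ G (g ^ n) * (MonoidAlgebra.of ℝ G g * z) := by
      rw [pow_succ, map_mul, mul_assoc]
    rw [h2, pow_succ, mul_smul, ← mul_smul_comm, h1, mul_smul_comm, smul_comm, ih, smul_smul,
      pow_succ, mul_comm]

theorem lazy_inj {z : MonoidAlgebra ℝ G} {g : G} {q : ℝ} {n : ℕ} (hn : n ≠ 0)
    (hg : MonoidAlgebra.of ℝ G (g ^ n) * z = z) (h0 : 0 ≤ q) (h1 : q ≤ 1)
    (hq : q < 1 / 2 ∨ Odd n) (h : lazy g q * z = 0) : z = 0 := by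
  have h2 := lazy_pow h n
  rw [hg] at h2
  have h3 : (q ^ n - (-(1 - q)) ^ n) • z = 0 := by rw [sub_smul, h2, sub_self]
  refine (smul_eq_zero.1 h3).resolve_left ?_
  rcases hq with hq | hq
  · intro h4
    have h5 : q ^ n = (-(1 - q)) ^ n := sub_eq_zero.1 h4
    have h6 : |q| ^ n = |(-(1 - q))| ^ n := by rw [← abs_pow, ← abs_pow, h5]
    have h7 : |q| < |(-(1 - q))| := by
      rw [abs_of_nonneg h0, abs_neg, abs_of_nonneg (by linarith)]; linarith
    exact absurd h6 (pow_lt_pow_left₀ h7 (abs_nonneg _) hn).ne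
  · rw [hq.neg_pow, sub_neg_eq_add]
    have h4 : 0 ≤ 1 - q := by linarith
    intro h5
    have h6 : q ^ n = 0 := le_antisymm (by nlinarith [pow_nonneg h4 n, pow_nonneg h0 n])
      (pow_nonneg h0 n)
    have h7 : (1 - q) ^ n = 0 := by linarith
    have h8 := pow_eq_zero_iff hn |>.1 h6
    have h9 := pow_eq_zero_iff hn |>.1 h7
    linarith

theorem one_sub_mul_powers (g : G) {p : ℕ} (hp : p ≠ 0) (z : MonoidAlgebra ℝ G)
    (h : powers g p * z = 0) : MonoidAlgebra.of ℝ G (g ^ p) * z = z ∧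
      (∑ i ∈ Finset.range p, MonoidAlgebra.of ℝ G (g ^ i)) * z = 0 := by
  have h1 : (∑ i ∈ Finset.range p, MonoidAlgebra.of ℝ G (g ^ i)) * z = 0 := by
    rw [powers, smul_mul_assoc] at h
    exact (smul_eq_zero.1 h).resolve_left (inv_ne_zero (by exact_mod_cast hp))
  refine ⟨?_, h1⟩
  have h2 : (MonoidAlgebra.of ℝ G g - 1) * (∑ i ∈ Finset.range p, MonoidAlgebra.of ℝ G (g ^ i))
      = MonoidAlgebra.of ℝ G (g ^ p) - 1 := by
    simp only [map_pow]
    exact mul_geom_sum _ _
  have h3 := congrArg (· * z) h2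
  simp only [mul_assoc, h1, mul_zero, sub_mul, one_mul] at h3
  exact (sub_eq_zero.1 (by simpa using h3.symm))

theorem powers_inj {z : MonoidAlgebra ℝ G} {g : G} {p n : ℕ} (hp : p ≠ 0)
    (hpn : Nat.Coprime p n) (hn : n ≠ 0)
    (hg : MonoidAlgebra.of ℝ G (g ^ n) * z = z) (h : powers g p * z = 0) : z = 0 := by
  obtain ⟨h1, h2⟩ := one_sub_mul_powers g hp z h
  have hpow : ∀ (k m : ℕ), MonoidAlgebra.of ℝ G (g ^ k) * z = z →
      MonoidAlgebra.of ℝ G (g ^ (k * m)) * z = z := by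
    intro k m hk
    induction m with
    | zero => rw [mul_zero, pow_zero, map_one, one_mul]
    | succ m ih =>
      rw [Nat.mul_succ, pow_add, map_mul, mul_assoc, hk, ih]
  have hgz : MonoidAlgebra.of ℝ G g * z = z := by
    rcases Nat.lt_or_ge 1 n with hn1 | hn1
    · obtain ⟨r, hr⟩ := Nat.exists_mul_mod_eq_one_of_coprime hpn hn1
      have h3 := hpow p r h1
      have h4 : p * r = n * (p * r / n) + 1 := by
        have := Nat.div_add_mod (p * r) n
        omega
      rw [h4, pow_succ', map_mul, mul_assoc, hpow n _ hg] at h3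
      exact h3
    · have : n = 1 := by omega
      subst this
      simpa using hg
  have h5 : ∀ i : ℕ, MonoidAlgebra.of ℝ G (g ^ i) * z = z := fun i => by
    simpa using hpow 1 i (by simpa using hgz)
  rw [Finset.sum_mul] at h2
  simp only [h5, Finset.sum_const, Finset.card_range] at h2
  rw [← Nat.cast_smul_eq_nsmul ℝ] at h2
  exact (smul_eq_zero.1 h2).resolve_left (by exact_mod_cast hp)

/-- the left `N`-invariant elements -/
def Inv (N : Subgroup G) : Set (MonoidAlgebra ℝ G) :=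
  {z | ∀ n ∈ N, MonoidAlgebra.of ℝ G n * z = z}

theorem of_mem_Inv {N : Subgroup G} [N.Normal] (g : G) {z : MonoidAlgebra ℝ G} (hz : z ∈ Inv N) :
    MonoidAlgebra.of ℝ G g * z ∈ Inv N := by
  intro n hn
  rw [← mul_assoc, ← map_mul, show n * g = g * (g⁻¹ * n * g) by group, map_mul, mul_assoc,
    hz _ (by simpa using Subgroup.Normal.conj_mem inferInstance n hn g⁻¹)]

theorem smul_mem_Inv {N : Subgroup G} (r : ℝ) {z : MonoidAlgebra ℝ G} (hz : z ∈ Inv N) :
    r • z ∈ Inv N := fun n hn => by rw [mul_smul_comm, hz n hn]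

theorem add_mem_Inv {N : Subgroup G} {y z : MonoidAlgebra ℝ G} (hy : y ∈ Inv N)
    (hz : z ∈ Inv N) : y + z ∈ Inv N := fun n hn => by rw [mul_add, hy n hn, hz n hn]

theorem mul_mem_Inv {N : Subgroup G} [N.Normal] (x : MonoidAlgebra ℝ G) {z : MonoidAlgebra ℝ G}
    (hz : z ∈ Inv N) : x * z ∈ Inv N := by
  induction x using MonoidAlgebra.induction_on with
  | of g => exact of_mem_Inv g hz
  | add x y hx hy => rw [add_mul]; exact add_mem_Inv hx hy
  | smul r x hx => rw [smul_mul_assoc]; exact smul_mem_Inv r hx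

/-- if all members of `F` act injectively on the `N`-invariant elements and the uniform
distribution is a product, then `N` is everything -/
theorem eq_top_of_inj [Fintype G] {F : Set (MonoidAlgebra ℝ G)} (N : Subgroup G) [N.Normal]
    (hinj : ∀ x ∈ F, ∀ z ∈ Inv N, x * z = 0 → z = 0)
    (hu : uniform G ∈ Submonoid.closure F) : N = ⊤ := by
  classical
  by_contra hN
  obtain ⟨h, hh⟩ : ∃ h, h ∉ N := by
    by_contra hc
    push Not at hc
    exact hN (Subgroup.eq_top_iff' N |>.2 hc)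
  set τ : MonoidAlgebra ℝ G := ∑ n : N, MonoidAlgebra.of ℝ G (n : G) with hτ
  have hτI : τ ∈ Inv N := by
    intro n hn
    rw [hτ, Finset.mul_sum]
    exact Fintype.sum_equiv (Equiv.mulLeft (⟨n, hn⟩ : N)) _ _ fun x => by simp
  set z := τ - MonoidAlgebra.of ℝ G h * τ with hz
  have hzI : z ∈ Inv N := by
    rw [hz, sub_eq_add_neg, ← neg_one_smul ℝ]
    exact add_mem_Inv hτI (smul_mem_Inv _ (of_mem_Inv h hτI))
  have hz0 : z ≠ 0 := by
    intro h0
    have h1 : τ.coeff 1 = (MonoidAlgebra.of ℝ G h * τ).coeff 1 := by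
      rw [sub_eq_zero] at h0
      rw [← h0]
    have h2 : τ.coeff 1 = 1 := by
      rw [hτ, MonoidAlgebra.coeff_sum, Finsupp.finsetSum_apply,
        Finset.sum_eq_single (1 : N)]
      · simp [MonoidAlgebra.of_apply]
      · intro b _ hb
        have : (b : G) ≠ 1 := fun h => hb (Subtype.ext h)
        simp [MonoidAlgebra.of_apply, this]
      · intro h; exact absurd (Finset.mem_univ _) h
    have h3 : (MonoidAlgebra.of ℝ G h * τ).coeff 1 = 0 := by
      rw [hτ, Finset.mul_sum, MonoidAlgebra.coeff_sum, Finsupp.finsetSum_apply]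
      refine Finset.sum_eq_zero fun n _ => ?_
      rw [← map_mul, MonoidAlgebra.of_apply]
      have : h * (n : G) ≠ 1 := fun h4 => hh (by
        rw [eq_inv_of_mul_eq_one_left h4]; exact N.inv_mem n.2)
      simp [this]
    rw [h2, h3] at h1
    exact one_ne_zero h1
  have hσz : (∑ g, MonoidAlgebra.of ℝ G g) * z = 0 := by
    rw [hz, mul_sub, ← mul_assoc, sum_mul_of, sub_self]
  obtain ⟨x, hx, y, hy, hy0, hxy⟩ := exists_factor hu (Inv N) (fun x _ z hz => mul_mem_Inv x hz)
    z hzI hz0 (uniform_mul hσz)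
  exact hy0 (hinj x hx y hy hxy)

end Pool.Agent.H17.Mix
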