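import Pool.Agent.H17.Mix.Defs

/-!
# Killing nontrivial irreducible representations by products of small lazy steps and one more factor
-/

set_option autoImplicit false

open Topology Filter

namespace Pool.Agent.H17.Mix

universe u

variable {G : Type u} [Group G]

/-- all lazy steps with parameter at most `ε` belong to `F` -/
def Small (F : Set (MonoidAlgebra ℝ G)) (ε : ℝ) : Prop :=
  ∀ (g : G) (q : ℝ), 0 ≤ q → q ≤ ε → lazy g q ∈ F

section Loc
variable {V : Type u} [NormedAddCommGroup V] [NormedSpace ℝ V] [Fintype G]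

noncomputable def Ph (ρ : G → V →L[ℝ] V) : List G → ℝ × V × (G → ℝ) → V
  | [] => fun _ => 0
  | g :: L => fun x => (1 + x.2.2 g) • ρ g x.2.1 + Ph ρ L x + (x.1 * (1 + x.2.2 g)) • ρ g (Ph ρ L x)

omit [Group G] in
lemma Ph_smooth (ρ : G → V →L[ℝ] V) (L : List G) : ContDiff ℝ 1 (Ph ρ L) := by
  induction L with
  | nil => exact contDiff_const
  | cons g L ih =>
    have := (ρ g).contDiff (n := 1)
    unfold Ph
    fun_prop

omit [Fintype G] [Group G] in
lemma Ph_zero (ρ : G → V →L[ℝ] V) (L : List G) (w : V) (q : G → ℝ) :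
    Ph ρ L (0, w, q) = (L.map fun g => (1 + q g) • ρ g w).sum := by
  induction L with
  | nil => rfl
  | cons g L ih => simp [Ph, ih]

omit [Group G] in
lemma loc [FiniteDimensional ℝ V] (ρ : G → V →L[ℝ] V) (h0 : ∀ v, ∑ g, ρ g v = 0) (w : V)
    (hw : ∀ y, ∃ q : G → ℝ, ∑ g, q g • ρ g w = y) :
    ∃ δ > 0, ∀ e : ℝ, |e| < δ → ∀ w', ‖w' - w‖ < δ → ∀ y, ‖y‖ < δ →
      ∃ q : G → ℝ, ‖q‖ < 1 ∧ Ph ρ Finset.univ.toList (e, w', q) = y := by
  have := FiniteDimensional.complete ℝ V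
  set L := (Finset.univ : Finset G).toList
  let Ψ : ℝ × V × (G → ℝ) → ℝ × V × V := fun x => (x.1, x.2.1, Ph ρ L x)
  have hP := (Ph_smooth ρ L).contDiffAt (x := (0, w, 0)) |>.hasStrictFDerivAt one_ne_zero
  set D := fderiv ℝ (Ph ρ L) (0, w, 0)
  have hΨ : HasStrictFDerivAt Ψ ((ContinuousLinearMap.fst ℝ _ _).prod
      (((ContinuousLinearMap.fst ℝ _ _).comp (ContinuousLinearMap.snd ℝ _ _)).prod D))
      (0, w, 0) :=
    hasStrictFDerivAt_fst.prodMk ((hasStrictFDerivAt_fst.comp _ hasStrictFDerivAt_snd).prodMk hP)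
  have e0 : ∀ q, Ph ρ L (0, w, q) = ∑ g, q g • ρ g w := fun q => by
    rw [Ph_zero, Finset.sum_map_toList]
    simp [add_smul, Finset.sum_add_distrib, h0]
  have hD : ∀ q, D (0, 0, q) = ∑ g, q g • ρ g w := fun q => by
    have h1 : HasDerivAt (fun t : ℝ => ((0, w, t • q) : ℝ × V × (G → ℝ))) (0, 0, q) 0 :=
      (hasDerivAt_const _ _).prodMk ((hasDerivAt_const _ _).prodMk
        (by simpa using (hasDerivAt_id (0 : ℝ)).smul_const q))
    have h2 := HasFDerivAt.comp_hasDerivAt_of_eq (0 : ℝ) hP.hasFDerivAt h1 (by simp)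
    have h3 : HasDerivAt (fun t : ℝ => t • ∑ g, q g • ρ g w) (∑ g, q g • ρ g w) 0 := by
      simpa using (hasDerivAt_id (0 : ℝ)).smul_const (∑ g, q g • ρ g w)
    refine h2.unique (h3.congr_of_eventuallyEq (Eventually.of_forall fun t => ?_))
    simp [e0, Finset.smul_sum, smul_smul]
  have hm := hΨ.map_nhds_eq_of_surj (by
    rw [LinearMap.range_eq_top]
    rintro ⟨e, v, y⟩
    obtain ⟨q, hq⟩ := hw (y - D (e, v, 0))
    refine ⟨(e, v, q), ?_⟩
    have : D (e, v, q) = D (e, v, 0) + D (0, 0, q) := by rw [← map_add]; simp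
    simp [this, hD, hq])
  have hb : Ψ '' {x | ‖x.2.2‖ < 1} ∈ 𝓝 (Ψ (0, w, 0)) := by
    rw [← hm]
    exact image_mem_map ((isOpen_lt (by fun_prop) continuous_const).mem_nhds (by simp))
  obtain ⟨δ, hδ, hs⟩ := Metric.mem_nhds_iff.1 hb
  refine ⟨δ, hδ, fun e he w' hw' y hy => ?_⟩
  obtain ⟨⟨e', v, q⟩, h1, h2⟩ := hs (show ((e, w', y) : ℝ × V × V) ∈ Metric.ball _ δ by
    simp [Ψ, e0, Prod.dist_eq, dist_eq_norm, he, hw', hy])
  simp only [Ψ, Prod.mk.injEq] at h2
  obtain ⟨rfl, rfl, h3⟩ := h2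
  exact ⟨q, h1, h3⟩

variable [Module (MonoidAlgebra ℝ G) V] [IsScalarTower ℝ (MonoidAlgebra ℝ G) V]

def Reach (F : Set (MonoidAlgebra ℝ G)) (x y : V) : Prop :=
  ∃ s ∈ Submonoid.closure F, ∃ c : ℝ, s • x = c • y ∧ c ≠ 0

omit [Fintype G] in
lemma lazy_smul (g : G) (p : ℝ) (y : V) :
    lazy g p • y = (1 - p) • y + p • (MonoidAlgebra.of ℝ G g • y) := by
  simp only [lazy, add_smul, smul_assoc, one_smul]

omit [Fintype G] in
lemma reach_Ph {F : Set (MonoidAlgebra ℝ G)} {ε : ℝ} (hF : Small F ε)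
    (ρ : G → V →L[ℝ] V) (hρ : ∀ g v, ρ g v = MonoidAlgebra.of ℝ G g • v) (L : List G)
    (e : ℝ) (he : 0 ≤ e) (he2 : 2 * e ≤ ε) (w : V) (q : G → ℝ) (hq : ∀ g, 0 ≤ 1 + q g)
    (hq2 : ∀ g, 1 + q g ≤ 2) :
    Reach F w (w + e • Ph ρ L (e, w, q)) := by
  induction L with
  | nil => exact ⟨1, one_mem _, 1, by simp [Ph], one_ne_zero⟩
  | cons g L ih =>
    obtain ⟨s, hs, c, h, hc⟩ := ih
    have ht : 0 ≤ e * (1 + q g) := mul_nonneg he (hq g)
    have ht2 : e * (1 + q g) ≤ ε := by nlinarith [hq2 g]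
    set t := e * (1 + q g) with htd
    have h1 : t / (1 + t) ≤ ε := by
      rw [div_le_iff₀ (by positivity)]
      nlinarith [mul_nonneg ht (ht.trans ht2)]
    refine ⟨lazy g (t / (1 + t)) * s, mul_mem (Submonoid.subset_closure (hF g _ (by positivity)
      h1)) hs, c / (1 + t), ?_, by positivity⟩
    rw [mul_smul, h, lazy_smul, ← hρ]
    simp only [Ph, map_smul, map_add, ← htd]
    match_scalars <;> field_simp <;> ring

lemma kill1 {F : Set (MonoidAlgebra ℝ G)} {ε : ℝ} (hε : 0 < ε) (hF : Small F ε)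
    [FiniteDimensional ℝ V] [IsSimpleModule (MonoidAlgebra ℝ G) V]
    (h0 : ∀ v : V, (∑ g, MonoidAlgebra.of ℝ G g) • v = 0) (x : MonoidAlgebra ℝ G) (hx : x ∈ F)
    (v : V) (hv : v ≠ 0) (hg : x • v = 0) (u : V) (hu : u ≠ 0) :
    ∃ s ∈ Submonoid.closure F, s • u = 0 := by
  have hT : ∀ c : ℝ, x • (c • v) = 0 := fun c => by
    have : x • (c • v) = (x * algebraMap ℝ (MonoidAlgebra ℝ G) c) • v := by
      rw [mul_smul, algebraMap_smul]
    rw [this, ← Algebra.commutes, mul_smul, hg, smul_zero]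
  have hF' : x ∈ Submonoid.closure F := Submonoid.subset_closure hx
  by_cases hr : 1 < Module.rank ℝ V
  swap
  · obtain ⟨v0, h⟩ := rank_le_one_iff.1 (not_lt.1 hr)
    obtain ⟨a, rfl⟩ := h v
    obtain ⟨b, rfl⟩ := h u
    have ha : a ≠ 0 := fun h => hv (by simp [h])
    exact ⟨_, hF', by rw [← hT (b / a), smul_smul, div_mul_cancel₀ _ ha]⟩
  let ρ : G → V →L[ℝ] V := fun g => LinearMap.toContinuousLinearMap
    (DistribSMul.toLinearMap ℝ V (MonoidAlgebra.of ℝ G g))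
  have hρ : ∀ g v, ρ g v = MonoidAlgebra.of ℝ G g • v := fun _ _ => rfl
  have key : Reach F u v := by
    refine (isConnected_compl_singleton_of_one_lt_rank hr 0).isPreconnected.induction₂'
      (Reach F) (fun w hw => ?_) ?_ hu hv
    · obtain ⟨δ', hδ', h'⟩ := loc ρ (fun v => by simp only [hρ, ← Finset.sum_smul, h0]) w fun y => by
        obtain ⟨a, rfl⟩ := IsSimpleModule.toSpanSingleton_surjective (MonoidAlgebra ℝ G) hw y
        refine ⟨fun g => a.coeff g, ?_⟩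
        simp only [hρ, ← smul_assoc, ← Finset.sum_smul, LinearMap.toSpanSingleton_apply]
        congr 1
        ext x
        classical
        simp [Finsupp.single_apply]
      obtain ⟨δ, hδ, hδε, h⟩ : ∃ δ > 0, δ ≤ ε ∧ ∀ e : ℝ, |e| < δ → ∀ w', ‖w' - w‖ < δ →
          ∀ y, ‖y‖ < δ → ∃ q : G → ℝ, ‖q‖ < 1 ∧ Ph ρ Finset.univ.toList (e, w', q) = y :=
        ⟨min δ' ε, lt_min hδ' hε, min_le_right _ _, fun e he w' hw' y hy =>
          h' e (he.trans_le (min_le_left _ _)) w' (hw'.trans_le (min_le_left _ _)) y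
            (hy.trans_le (min_le_left _ _))⟩
      refine mem_nhdsWithin_of_mem_nhds ?_
      filter_upwards [Metric.ball_mem_nhds w (lt_min hδ (mul_pos (half_pos hδ) hδ))] with w' hw'
      rw [Metric.mem_ball, dist_eq_norm, lt_min_iff] at hw'
      have he : |δ / 2| < δ := by rw [abs_of_pos (half_pos hδ)]; linarith
      have hn : ‖(δ / 2)⁻¹ • (w' - w)‖ < δ := by
        rw [norm_smul, Real.norm_eq_abs, abs_of_pos (by positivity), inv_mul_lt_iff₀ (half_pos hδ)]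
        exact hw'.2
      have hq : ∀ q : G → ℝ, ‖q‖ < 1 → ∀ g, 0 ≤ 1 + q g := fun q hq g => by
        have := (abs_le.1 ((norm_le_pi_norm q g).trans hq.le)).1
        linarith
      have hq2 : ∀ q : G → ℝ, ‖q‖ < 1 → ∀ g, 1 + q g ≤ 2 := fun q hq g => by
        have := (abs_le.1 ((norm_le_pi_norm q g).trans hq.le)).2
        linarith
      constructor
      · obtain ⟨q, h1, h2⟩ := h _ he w (by simpa using hδ) _ hn
        have := reach_Ph hF ρ hρ Finset.univ.toList _ (half_pos hδ).le (by linarith) w q (hq q h1)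
          (hq2 q h1)
        rwa [h2, smul_inv_smul₀ (half_pos hδ).ne', add_sub_cancel] at this
      · obtain ⟨q, h1, h2⟩ := h _ he w' hw'.1 (-((δ / 2)⁻¹ • (w' - w))) (by rwa [norm_neg])
        have := reach_Ph hF ρ hρ Finset.univ.toList _ (half_pos hδ).le (by linarith) w' q (hq q h1)
          (hq2 q h1)
        rwa [h2, smul_neg, smul_inv_smul₀ (half_pos hδ).ne', neg_sub, add_sub_cancel] at this
    · rintro x y z - - - ⟨s, hs, c, h, hc⟩ ⟨s', hs', c', h', hc'⟩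
      refine ⟨s' * s, mul_mem hs' hs, c * c', ?_, mul_ne_zero hc hc'⟩
      have h3 : s' • (c • y) = c • (s' • y) := by
        have : s' • (c • y) = (s' * algebraMap ℝ (MonoidAlgebra ℝ G) c) • y := by
          rw [mul_smul, algebraMap_smul]
        rw [this, ← Algebra.commutes, mul_smul, algebraMap_smul]
      rw [mul_smul, h, h3, h', smul_smul]
  obtain ⟨s, hs, c, h, -⟩ := key
  exact ⟨_, mul_mem hF' hs, by rw [mul_smul, h, hT]⟩

end Loc

lemma kill2 {F : Set (MonoidAlgebra ℝ G)} {V : Type u} [AddCommGroup V] [Module ℝ V]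
    [FiniteDimensional ℝ V]
    [Module (MonoidAlgebra ℝ G) V] [IsScalarTower ℝ (MonoidAlgebra ℝ G) V]
    (h : ∀ u : V, u ≠ 0 → ∃ s ∈ Submonoid.closure F, s • u = 0) (n : ℕ) :
    ∀ U : Submodule ℝ V, Module.finrank ℝ U = n →
      ∃ s ∈ Submonoid.closure F, ∀ u ∈ U, s • u = 0 := by
  induction n using Nat.strong_induction_on with
  | _ n ih =>
    intro U hU
    by_cases hb : U = ⊥
    · exact ⟨1, one_mem _, fun u hu => by rw [hb, Submodule.mem_bot] at hu; simp [hu]⟩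
    obtain ⟨u, hu, hu0⟩ := (Submodule.ne_bot_iff U).1 hb
    obtain ⟨s, hs, h1⟩ := h u hu0
    let f : U →ₗ[ℝ] V := (DistribSMul.toLinearMap ℝ V s).comp U.subtype
    have h2 := LinearMap.finrank_range_add_finrank_ker f
    have h3 : 0 < Module.finrank ℝ (LinearMap.ker f) :=
      Module.finrank_pos_iff_exists_ne_zero.2 ⟨⟨⟨u, hu⟩, h1⟩, fun e =>
        hu0 (congrArg (fun x : LinearMap.ker f => (x.1 : V)) e)⟩
    obtain ⟨t, ht, h4⟩ := ih _ (by omega) (LinearMap.range f) rfl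
    exact ⟨t * s, mul_mem ht hs, fun x hx => by rw [mul_smul]; exact h4 _ ⟨⟨x, hx⟩, rfl⟩⟩

lemma kill3 [Fintype G] {F : Set (MonoidAlgebra ℝ G)} {ε : ℝ} (hε : 0 < ε) (hF : Small F ε)
    {V : Type u} [AddCommGroup V] [Module ℝ V] [FiniteDimensional ℝ V]
    [Module (MonoidAlgebra ℝ G) V] [IsScalarTower ℝ (MonoidAlgebra ℝ G) V]
    [IsSimpleModule (MonoidAlgebra ℝ G) V]
    (h0 : ∀ v : V, (∑ g, MonoidAlgebra.of ℝ G g) • v = 0)
    (hx : ∃ x ∈ F, ∃ v : V, v ≠ 0 ∧ x • v = 0) :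
    ∃ s ∈ Submonoid.closure F, ∀ u : V, s • u = 0 := by
  obtain ⟨x, hx, v, hv, hxv⟩ := hx
  let e := (Module.finBasis ℝ V).equivFun
  letI := NormedAddCommGroup.induced V _ e.toLinearMap e.injective
  letI := NormedSpace.induced ℝ V _ e.toLinearMap
  obtain ⟨s, hs, h⟩ := kill2 (kill1 hε hF h0 x hx v hv hxv) _ ⊤ rfl
  exact ⟨s, hs, fun u => h u trivial⟩

theorem of_mul_sum [Fintype G] (g : G) :
    MonoidAlgebra.of ℝ G g * ∑ h, MonoidAlgebra.of ℝ G h = ∑ h, MonoidAlgebra.of ℝ G h := by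
  rw [Finset.mul_sum]
  exact Fintype.sum_equiv (Equiv.mulLeft g) _ _ fun x => (map_mul _ _ _).symm

theorem sum_mul_of [Fintype G] (g : G) :
    (∑ h, MonoidAlgebra.of ℝ G h) * MonoidAlgebra.of ℝ G g = ∑ h, MonoidAlgebra.of ℝ G h := by
  rw [Finset.sum_mul]
  exact Fintype.sum_equiv (Equiv.mulRight g) _ _ fun x => (map_mul _ _ _).symm

theorem sum_comm [Fintype G] (a : MonoidAlgebra ℝ G) :
    (∑ h, MonoidAlgebra.of ℝ G h) * a = a * ∑ h, MonoidAlgebra.of ℝ G h := by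
  induction a using MonoidAlgebra.induction_on with
  | of g => rw [of_mul_sum, sum_mul_of]
  | add x y hx hy => rw [mul_add, add_mul, hx, hy]
  | smul r x hx => rw [mul_smul_comm, smul_mul_assoc, hx]

/-- if all members of `F` have total mass one and every nontrivial minimal left ideal has a
nonzero element killed by some member of `F`, then the uniform distribution is a product -/
theorem uniform_mem [Fintype G] {F : Set (MonoidAlgebra ℝ G)} {ε : ℝ} (hε : 0 < ε)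
    (hF : Small F ε)
    (hm : ∀ x ∈ F, x * ∑ g, MonoidAlgebra.of ℝ G g = ∑ g, MonoidAlgebra.of ℝ G g)
    (hL : ∀ L : Submodule (MonoidAlgebra ℝ G) (MonoidAlgebra ℝ G),
      IsSimpleModule (MonoidAlgebra ℝ G) L → (∀ v ∈ L, (∑ g, MonoidAlgebra.of ℝ G g) * v = 0) →
      ∃ x ∈ F, ∃ v ∈ L, v ≠ 0 ∧ x * v = 0) :
    uniform G ∈ Submonoid.closure F := by
  set σ := ∑ g, MonoidAlgebra.of ℝ G g with hσ
  let W : Submodule (MonoidAlgebra ℝ G) (MonoidAlgebra ℝ G) :=
    LinearMap.ker (LinearMap.toSpanSingleton _ _ σ)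
  obtain ⟨Z, ⟨hZW, s, hs, hZ⟩, hmax⟩ := exists_maximal_of_wellFoundedGT
    (fun Z : Submodule (MonoidAlgebra ℝ G) (MonoidAlgebra ℝ G) =>
      Z ≤ W ∧ ∃ s, s ∈ Submonoid.closure F ∧ ∀ z ∈ Z, s * z = 0)
    ⟨⊥, bot_le, 1, one_mem _, fun z hz => by simpa using hz⟩
  have hWZ : W ≤ Z := by
    rw [← IsSemisimpleModule.sSup_simples_le W]
    refine sSup_le fun V ⟨hV, hVW⟩ => ?_
    have : FiniteDimensional ℝ V :=
      FiniteDimensional.of_injective (V.subtype.restrictScalars ℝ) V.injective_subtype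
    have hv0 : ∀ v ∈ V, σ * v = 0 := fun v hv => by
      have : v * σ = 0 := hVW hv
      rw [sum_comm]; exact this
    obtain ⟨x, hx, v, hv, hv1, hv2⟩ := hL V hV hv0
    obtain ⟨t, ht, h⟩ := kill3 hε hF (V := V) (fun v => Subtype.ext (hv0 v v.2))
      ⟨x, hx, ⟨v, hv⟩, fun h => hv1 (congrArg Subtype.val h), Subtype.ext hv2⟩
    refine le_sup_right.trans (hmax ⟨sup_le hZW hVW, t * s, mul_mem ht hs, fun z hz => ?_⟩
      le_sup_left)
    obtain ⟨a, ha, b, hb, rfl⟩ := Submodule.mem_sup.1 hz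
    rw [mul_assoc, mul_add, hZ a ha, zero_add]
    exact congrArg Subtype.val (h ⟨s * b, V.smul_mem s hb⟩)
  have h1 : (1 - (Fintype.card G : ℝ)⁻¹ • σ) ∈ W := by
    show (1 - (Fintype.card G : ℝ)⁻¹ • σ) * σ = 0
    have : σ * σ = (Fintype.card G : ℝ) • σ := by
      conv_lhs => rw [hσ, Finset.sum_mul]
      simp only [of_mul_sum, Finset.sum_const, Finset.card_univ, Nat.cast_smul_eq_nsmul]
      rfl
    rw [sub_mul, smul_mul_assoc, this, inv_smul_smul₀ (by simp)]; simp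
  have h2 := hZ _ (hWZ h1)
  have h3 : ∀ s ∈ Submonoid.closure F, s * σ = σ := fun s hs => by
    induction hs using Submonoid.closure_induction with
    | mem x hx => exact hm x hx
    | one => rw [one_mul]
    | mul x y _ _ hx hy => rw [mul_assoc, hy, hx]
  rw [mul_sub, mul_smul_comm, h3 s hs, mul_one, sub_eq_zero] at h2
  rw [uniform, ← hσ, ← h2]
  exact hs

end Pool.Agent.H17.Mix
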