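import Mathlib

/-!
# Products of random steps on a finite group: the definitions

The law of a random element of `G` is an element of the group algebra `ℝ[G]`; the law of a product
of independent random elements is the product of the laws.
-/

set_option autoImplicit false

namespace Pool.Agent.H17.Mix

universe u v

variable {G : Type u} [Group G]

/-- The lazy step: the law of `g ^ ε` with `ε` Bernoulli of parameter `q`. -/
noncomputable def lazy (g : G) (q : ℝ) : MonoidAlgebra ℝ G :=
  (1 - q) • 1 + q • MonoidAlgebra.of ℝ G g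

/-- the uniform distribution on `G` -/
noncomputable def uniform (G : Type u) [Group G] [Fintype G] : MonoidAlgebra ℝ G :=
  (Fintype.card G : ℝ)⁻¹ • ∑ g : G, MonoidAlgebra.of ℝ G g

/-- the law of `g ^ J` with `J` uniform on `0, ..., p - 1` -/
noncomputable def powers (g : G) (p : ℕ) : MonoidAlgebra ℝ G :=
  (p : ℝ)⁻¹ • ∑ i ∈ Finset.range p, MonoidAlgebra.of ℝ G (g ^ i)

/-- the symmetric step `(1 - 2t) e + t h + t h⁻¹` -/
noncomputable def symm (h : G) (t : ℝ) : MonoidAlgebra ℝ G :=
  (1 - 2 * t) • 1 + t • MonoidAlgebra.of ℝ G h + t • MonoidAlgebra.of ℝ G h⁻¹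

open Classical in
/-- the uniform distribution on the subgroup `H` -/
noncomputable def subUniform [Fintype G] (H : Subgroup G) : MonoidAlgebra ℝ G :=
  ((Finset.univ.filter (· ∈ H) : Finset G).card : ℝ)⁻¹ •
    ∑ g ∈ (Finset.univ.filter (· ∈ H) : Finset G), MonoidAlgebra.of ℝ G g

open Classical in
/-- the probability that `g • x = y`, where `g` has the law `s` -/
noncomputable def law {X : Type v} [MulAction G X] [Fintype G] (s : MonoidAlgebra ℝ G)
    (x y : X) : ℝ :=
  ∑ g : G, if g • x = y then s.coeff g else 0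

/-- `G` is mixable with parameters in `P`: the uniform distribution is the product of finitely many
lazy steps with parameters in `P`. -/
def Mixable (G : Type u) [Group G] [Fintype G] (P : Set ℝ) : Prop :=
  ∃ l : List (G × ℝ), (∀ x ∈ l, x.2 ∈ P) ∧ (l.map fun x => lazy x.1 x.2).prod = uniform G

/-- the only normal subgroup of odd index is the whole group -/
def TwoPrimeSimple (G : Type u) [Group G] : Prop :=
  ∀ N : Subgroup G, N.Normal → Odd N.index → N = ⊤

/-- the allowed steps: lazy with parameter at most `ε`, or the law of `g ^ J`, where `J` is uniform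
on `0, ..., p - 1`, with `p` in `π` -/
def PrimeSteps (G : Type u) [Group G] (π : Set ℕ) (ε : ℝ) : Set (MonoidAlgebra ℝ G) :=
  {x | (∃ (g : G) (q : ℝ), 0 ≤ q ∧ q ≤ ε ∧ x = lazy g q) ∨ ∃ (g : G), ∃ p ∈ π, x = powers g p}

/-- the allowed steps: lazy with parameter at most `ε`, or uniform on a member of `S` -/
def SubgroupSteps (G : Type u) [Group G] [Fintype G] (S : Set (Subgroup G)) (ε : ℝ) :
    Set (MonoidAlgebra ℝ G) :=
  {x | (∃ (g : G) (q : ℝ), 0 ≤ q ∧ q ≤ ε ∧ x = lazy g q) ∨ ∃ H ∈ S, x = subUniform H}

end Pool.Agent.H17.Mix
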