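import Pool.Agent.H17.Mix.Thm

/-! Steps which are uniform on subgroups; transitive actions. -/

set_option autoImplicit false

open Topology Filter

namespace Pool.Agent.H17.Mix

universe u v

variable {G : Type u} [Group G]

theorem subUniform_mul [Fintype G] (H : Subgroup G) (z : MonoidAlgebra ℝ G)
    (h : ∀ g ∈ H, MonoidAlgebra.of ℝ G g * z = z) : subUniform H * z = z := by
  classical
  rw [subUniform, smul_mul_assoc, Finset.sum_mul, Finset.sum_congr rfl (fun g hg =>
    h g (Finset.mem_filter.1 hg).2), Finset.sum_const, ← Nat.cast_smul_eq_nsmul ℝ, smul_smul,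
    inv_mul_cancel₀, one_smul]
  exact_mod_cast (Finset.card_pos.2 ⟨1, by simp [H.one_mem]⟩).ne'

theorem subUniform_kill [Fintype G] (H : Subgroup G) (z : MonoidAlgebra ℝ G) {h : G}
    (hh : h ∈ H) : subUniform H * (z - MonoidAlgebra.of ℝ G h * z) = 0 := by
  classical
  have h1 : (∑ g ∈ (Finset.univ.filter (· ∈ H) : Finset G), MonoidAlgebra.of ℝ G g) *
      MonoidAlgebra.of ℝ G h
      = ∑ g ∈ (Finset.univ.filter (· ∈ H) : Finset G), MonoidAlgebra.of ℝ G g := by
    rw [Finset.sum_mul]
    refine Finset.sum_equiv (Equiv.mulRight h) (fun g => ?_) fun g _ => (map_mul _ _ _).symm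
    simp only [Finset.mem_filter, Finset.mem_univ, true_and, Equiv.coe_mulRight]
    exact (H.mul_mem_cancel_right hh).symm
  rw [mul_sub, ← mul_assoc, subUniform, smul_mul_assoc _ _ (MonoidAlgebra.of ℝ G h), h1, sub_self]

theorem subgroupSteps [Fintype G] (S : Set (Subgroup G)) (ε : ℝ) (hε : 0 < ε)
    (h2 : ε < 1 / 2) : uniform G ∈ Submonoid.closure (SubgroupSteps G S ε) ↔
      Subgroup.normalClosure (⋃ H ∈ S, (H : Set G)) = ⊤ := by
  constructor
  · intro hu
    refine eq_top_of_inj _ ?_ hu
    rintro x (⟨g, q, h0, h1, rfl⟩ | ⟨H, hH, rfl⟩) z hz hxz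
    · exact lazy_inj (orderOf_pos g).ne' (by rw [pow_orderOf_eq_one, map_one, one_mul]) h0
        (by linarith) (Or.inl (by linarith)) hxz
    · rw [subUniform_mul H z] at hxz
      · exact hxz
      · intro g hg
        exact hz g (Subgroup.subset_normalClosure (Set.mem_biUnion hH hg))
  · intro hN
    refine (criterion hε (fun g q h0 h1 => Or.inl ⟨g, q, h0, h1, rfl⟩) ?_).2 ?_
    · rintro x (⟨g, q, h0, h1, rfl⟩ | ⟨H, hH, rfl⟩)
      · exact mass_of_sum (lazy_sum g q)
      · exact mass_of_sum (subUniform_mul H _ fun g _ => of_mul_sum g)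
    · intro L hL hn
      have hker : ker L ≠ ⊤ := by
        intro h
        obtain ⟨g, v, hv, hgv⟩ := hn
        exact hgv ((h ▸ Subgroup.mem_top g : g ∈ ker L) v hv)
      obtain ⟨H, hH, h, hh, hhL⟩ : ∃ H ∈ S, ∃ h ∈ H, h ∉ ker L := by
        by_contra hc
        push Not at hc
        apply hker
        rw [eq_top_iff, ← hN]
        refine Subgroup.normalClosure_le_normal ?_
        intro g hg
        obtain ⟨H, hH, hgH⟩ := Set.mem_iUnion₂.1 hg
        exact hc H hH g hgH
      obtain ⟨y, hy, hgy⟩ : ∃ y ∈ L, MonoidAlgebra.of ℝ G h * y ≠ y := by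
        by_contra hc
        push Not at hc
        exact hhL hc
      exact ⟨subUniform H, Or.inr ⟨H, hH, rfl⟩, y - MonoidAlgebra.of ℝ G h * y,
        L.sub_mem hy (L.smul_mem (MonoidAlgebra.of ℝ G h) hy), sub_ne_zero.2 hgy.symm,
        subUniform_kill H y hh⟩

section Act

variable {X : Type v} [MulAction G X]

theorem law_add [Fintype G] (s t : MonoidAlgebra ℝ G) (x y : X) :
    law (s + t) x y = law s x y + law t x y := by
  classical
  rw [law, law, law, ← Finset.sum_add_distrib]
  refine Finset.sum_congr rfl fun g _ => ?_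
  split_ifs <;> simp

theorem law_smul [Fintype G] (r : ℝ) (s : MonoidAlgebra ℝ G) (x y : X) :
    law (r • s) x y = r * law s x y := by
  classical
  rw [law, law, Finset.mul_sum]
  refine Finset.sum_congr rfl fun g _ => ?_
  split_ifs <;> simp

open Classical in
theorem law_of [Fintype G] (g : G) (x y : X) :
    law (MonoidAlgebra.of ℝ G g) x y = if g • x = y then 1 else 0 := by
  rw [law, Finset.sum_eq_single g]
  · simp [MonoidAlgebra.of_apply]
  · intro b _ hb
    simp [MonoidAlgebra.of_apply, Finsupp.single_apply, Ne.symm hb]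
  · intro h; exact absurd (Finset.mem_univ _) h

theorem law_sum [Fintype G] {ι : Type*} (I : Finset ι) (f : ι → MonoidAlgebra ℝ G) (x y : X) :
    law (∑ i ∈ I, f i) x y = ∑ i ∈ I, law (f i) x y := by
  classical
  induction I using Finset.induction_on with
  | empty => simp [law]
  | insert a s ha ih => rw [Finset.sum_insert ha, Finset.sum_insert ha, law_add, ih]

end Act

end Pool.Agent.H17.Mix
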