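import Pool.Agent.H17.Mix.Three

/-! The criterion and its consequences. -/

set_option autoImplicit false

open Topology Filter

namespace Pool.Agent.H17.Mix

universe u

variable {G : Type u} [Group G]

/-- the minimal left ideal `L` is not the trivial representation -/
def Nontriv (L : Submodule (MonoidAlgebra ℝ G) (MonoidAlgebra ℝ G)) : Prop :=
  ∃ g : G, ∃ v ∈ L, MonoidAlgebra.of ℝ G g * v ≠ v

theorem mul_of_fixed [Fintype G] {v : MonoidAlgebra ℝ G}
    (hv : ∀ g : G, MonoidAlgebra.of ℝ G g * v = v) (x : MonoidAlgebra ℝ G) :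
    x * v = mass x • v := by
  have h1 : (∑ g : G, MonoidAlgebra.of ℝ G g) * v = (Fintype.card G : ℝ) • v := by
    rw [Finset.sum_mul]
    simp only [hv, Finset.sum_const, Finset.card_univ]
    rw [Nat.cast_smul_eq_nsmul ℝ]
  have hn : (Fintype.card G : ℝ) ≠ 0 := Nat.cast_ne_zero.2 Fintype.card_ne_zero
  have h2 : v = (Fintype.card G : ℝ)⁻¹ • ((∑ g : G, MonoidAlgebra.of ℝ G g) * v) := by
    rw [h1, smul_smul, inv_mul_cancel₀ hn, one_smul]
  calc x * v = x * ((Fintype.card G : ℝ)⁻¹ • ((∑ g : G, MonoidAlgebra.of ℝ G g) * v)) := by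
        rw [← h2]
    _ = (Fintype.card G : ℝ)⁻¹ • ((x * ∑ g : G, MonoidAlgebra.of ℝ G g) * v) := by
        rw [mul_smul_comm, mul_assoc]
    _ = mass x • v := by
        rw [mul_sum_eq, smul_mul_assoc, smul_comm, ← h2]

theorem sum_mul_eq_zero [Fintype G] {L : Submodule (MonoidAlgebra ℝ G) (MonoidAlgebra ℝ G)}
    (hL : IsSimpleModule (MonoidAlgebra ℝ G) L) (h : Nontriv L) :
    ∀ v ∈ L, (∑ g, MonoidAlgebra.of ℝ G g) * v = 0 := by
  intro v hv
  let L' : Submodule (MonoidAlgebra ℝ G) (MonoidAlgebra ℝ G) :=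
    { carrier := {v | v ∈ L ∧ ∀ g : G, MonoidAlgebra.of ℝ G g * v = v}
      add_mem' := fun {a b} ha hb => ⟨L.add_mem ha.1 hb.1, fun g => by
        rw [mul_add, ha.2, hb.2]⟩
      zero_mem' := ⟨L.zero_mem, fun g => mul_zero _⟩
      smul_mem' := fun c x hx => by
        refine ⟨L.smul_mem c hx.1, fun g => ?_⟩
        rw [smul_eq_mul, mul_of_fixed hx.2 c, mul_smul_comm, hx.2] }
  have h1 : L' ≤ L := fun x hx => hx.1
  rcases (isSimpleModule_iff_isAtom.1 hL).le_iff.1 h1 with h2 | h2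
  · have h3 : (∑ g, MonoidAlgebra.of ℝ G g) * v ∈ L' :=
      ⟨L.smul_mem (∑ g, MonoidAlgebra.of ℝ G g) hv, fun g => by rw [← mul_assoc, of_mul_sum]⟩
    rw [h2] at h3
    exact (Submodule.mem_bot _).1 h3
  · obtain ⟨g, w, hw, hgw⟩ := h
    rw [← h2] at hw
    exact absurd (hw.2 g) hgw

theorem exists_ne_zero {L : Submodule (MonoidAlgebra ℝ G) (MonoidAlgebra ℝ G)}
    (hL : IsSimpleModule (MonoidAlgebra ℝ G) L) : ∃ v ∈ L, v ≠ 0 := by
  have h1 : L ≠ ⊥ := (isSimpleModule_iff_isAtom.1 hL).1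
  exact (Submodule.ne_bot_iff L).1 h1

theorem nontriv_of_sum [Fintype G] {L : Submodule (MonoidAlgebra ℝ G) (MonoidAlgebra ℝ G)}
    (hL : IsSimpleModule (MonoidAlgebra ℝ G) L)
    (h : ∀ v ∈ L, (∑ g, MonoidAlgebra.of ℝ G g) * v = 0) : Nontriv L := by
  obtain ⟨v, hv, hv0⟩ := exists_ne_zero hL
  by_contra hc
  unfold Nontriv at hc
  push Not at hc
  have h1 := h v hv
  rw [Finset.sum_mul] at h1
  simp only [fun g => hc g v hv, Finset.sum_const, Finset.card_univ] at h1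
  rw [← Nat.cast_smul_eq_nsmul ℝ] at h1
  exact hv0 ((smul_eq_zero.1 h1).resolve_left (Nat.cast_ne_zero.2 Fintype.card_ne_zero))

/-- the criterion -/
theorem criterion [Fintype G] {F : Set (MonoidAlgebra ℝ G)} {ε : ℝ} (hε : 0 < ε)
    (hF : Small F ε) (hm : ∀ x ∈ F, mass x = 1) :
    uniform G ∈ Submonoid.closure F ↔
      ∀ L : Submodule (MonoidAlgebra ℝ G) (MonoidAlgebra ℝ G),
        IsSimpleModule (MonoidAlgebra ℝ G) L → Nontriv L →
        ∃ x ∈ F, ∃ v ∈ L, v ≠ 0 ∧ x * v = 0 := by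
  constructor
  · intro hu L hL hn
    obtain ⟨v, hv, hv0⟩ := exists_ne_zero hL
    exact exists_factor hu L (fun x _ z hz => L.smul_mem x hz) v hv hv0
      (uniform_mul (sum_mul_eq_zero hL hn v hv))
  · intro h
    exact uniform_mem hε hF (fun x hx => by rw [mul_sum_eq, hm x hx, one_smul])
      fun L hL h0 => h L hL (nontriv_of_sum hL h0)

theorem mass_of_sum [Fintype G] {x : MonoidAlgebra ℝ G}
    (h : x * ∑ g, MonoidAlgebra.of ℝ G g = ∑ g, MonoidAlgebra.of ℝ G g) : mass x = 1 := by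
  rw [mul_sum_eq] at h
  have h1 : (mass x - 1) • (∑ g : G, MonoidAlgebra.of ℝ G g) = 0 := by
    rw [sub_smul, h, one_smul, sub_self]
  refine sub_eq_zero.1 ((smul_eq_zero.1 h1).resolve_right ?_)
  intro h2
  classical
  have h3 := congrArg (fun x : MonoidAlgebra ℝ G => x.coeff 1) h2
  simp only [MonoidAlgebra.coeff_sum, Finsupp.finsetSum_apply, MonoidAlgebra.of_apply] at h3
  rw [Finset.sum_eq_single (1 : G)] at h3
  · simp at h3
  · intro b _ hb; simp [hb]
  · intro h; exact absurd (Finset.mem_univ _) h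

/-- the elements acting trivially on `L` -/
def ker (L : Submodule (MonoidAlgebra ℝ G) (MonoidAlgebra ℝ G)) : Subgroup G where
  carrier := {g | ∀ v ∈ L, MonoidAlgebra.of ℝ G g * v = v}
  one_mem' := fun v _ => by rw [map_one, one_mul]
  mul_mem' := fun {a b} ha hb v hv => by rw [map_mul, mul_assoc, hb v hv, ha v hv]
  inv_mem' := fun {a} ha v hv => by
    conv_lhs => rw [← ha v hv]
    rw [← mul_assoc, ← map_mul, inv_mul_cancel, map_one, one_mul]

instance (L : Submodule (MonoidAlgebra ℝ G) (MonoidAlgebra ℝ G)) : (ker L).Normal where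
  conj_mem := fun n hn g v hv => by
    have h1 : MonoidAlgebra.of ℝ G n * (MonoidAlgebra.of ℝ G g⁻¹ * v)
        = MonoidAlgebra.of ℝ G g⁻¹ * v := hn _ (L.smul_mem (MonoidAlgebra.of ℝ G g⁻¹) hv)
    rw [map_mul, map_mul, mul_assoc, mul_assoc, h1, ← mul_assoc, ← map_mul,
      mul_inv_cancel, map_one, one_mul]

theorem primeSteps [Fintype G] (π : Set ℕ) (hπ : ∀ p ∈ π, p.Prime) (ε : ℝ) (hε : 0 < ε)
    (h2 : ε < 1 / 2) : uniform G ∈ Submonoid.closure (PrimeSteps G π ε) ↔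
      ∀ N : Subgroup G, N.Normal → (∀ p ∈ π, ¬ p ∣ N.index) → N = ⊤ := by
  constructor
  · intro hu N hN hp
    refine eq_top_of_inj N ?_ hu
    have hidx : N.index ≠ 0 := Subgroup.index_ne_zero_of_finite
    rintro x (⟨g, q, h0, h1, rfl⟩ | ⟨g, p, hpπ, rfl⟩) z hz hxz
    · exact lazy_inj hidx (hz _ (Subgroup.pow_index_mem N g)) h0 (by linarith)
        (Or.inl (by linarith)) hxz
    · exact powers_inj (hπ p hpπ).ne_zero
        ((Nat.Prime.coprime_iff_not_dvd (hπ p hpπ)).2 (hp p hpπ)) hidx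
        (hz _ (Subgroup.pow_index_mem N g)) hxz
  · intro hN
    refine (criterion hε (fun g q h0 h1 => Or.inl ⟨g, q, h0, h1, rfl⟩) ?_).2 ?_
    · rintro x (⟨g, q, h0, h1, rfl⟩ | ⟨g, p, hpπ, rfl⟩)
      · exact mass_of_sum (lazy_sum g q)
      · exact mass_of_sum (powers_sum g (hπ p hpπ).ne_zero)
    · intro L hL hn
      have hker : ker L ≠ ⊤ := by
        intro h
        obtain ⟨g, v, hv, hgv⟩ := hn
        exact hgv ((h ▸ Subgroup.mem_top g : g ∈ ker L) v hv)
      obtain ⟨p, hp, hdvd⟩ : ∃ p ∈ π, p ∣ (ker L).index := by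
        by_contra hc
        push Not at hc
        exact hker (hN _ inferInstance hc)
      have : Fact p.Prime := ⟨hπ p hp⟩
      obtain ⟨x, hx⟩ := exists_prime_orderOf_dvd_card' (G := G ⧸ ker L) p hdvd
      obtain ⟨g, rfl⟩ := QuotientGroup.mk'_surjective _ x
      have h1 : g ∉ ker L := fun h => by
        rw [show QuotientGroup.mk' (ker L) g = 1 from (QuotientGroup.eq_one_iff _).2 h] at hx
        simp only [orderOf_one] at hx
        exact (hπ p hp).one_lt.ne hx
      have h3 : g ^ p ∈ ker L := (QuotientGroup.eq_one_iff (N := ker L) _).1 (by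
        have := pow_orderOf_eq_one (QuotientGroup.mk' (ker L) g)
        rw [hx] at this
        exact this)
      obtain ⟨y, hy, hgy⟩ : ∃ y ∈ L, MonoidAlgebra.of ℝ G g * y ≠ y := by
        by_contra hc
        push Not at hc
        exact h1 hc
      refine ⟨powers g p, Or.inr ⟨g, p, hp, rfl⟩, y - MonoidAlgebra.of ℝ G g * y,
        L.sub_mem hy (L.smul_mem (MonoidAlgebra.of ℝ G g) hy), sub_ne_zero.2 hgy.symm, ?_⟩
      have h4 : (∑ i ∈ Finset.range p, MonoidAlgebra.of ℝ G (g ^ i)) *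
          (1 - MonoidAlgebra.of ℝ G g) = 1 - MonoidAlgebra.of ℝ G (g ^ p) := by
        simp only [map_pow]
        exact geom_sum_mul_neg _ _
      rw [powers, smul_mul_assoc, show y - MonoidAlgebra.of ℝ G g * y
        = (1 - MonoidAlgebra.of ℝ G g) * y by rw [sub_mul, one_mul], ← mul_assoc, h4, sub_mul,
        one_mul, h3 y hy, sub_self, smul_zero]

theorem mixable_iff [Fintype G] (P : Set ℝ) : Mixable G P ↔
    uniform G ∈ Submonoid.closure {x : MonoidAlgebra ℝ G | ∃ (g : G), ∃ q ∈ P, x = lazy g q} := by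
  constructor
  · rintro ⟨l, hl, h⟩
    rw [← h]
    refine list_prod_mem fun x hx => ?_
    obtain ⟨y, hy, rfl⟩ := List.mem_map.1 hx
    exact Submonoid.subset_closure ⟨y.1, y.2, hl y hy, rfl⟩
  · intro h
    suffices H : ∀ x ∈ Submonoid.closure {x : MonoidAlgebra ℝ G | ∃ (g : G), ∃ q ∈ P,
        x = lazy g q}, ∃ l : List (G × ℝ), (∀ x ∈ l, x.2 ∈ P) ∧
          (l.map fun x => lazy x.1 x.2).prod = x from H _ h
    intro x hx
    induction hx using Submonoid.closure_induction with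
    | mem x hx =>
      obtain ⟨g, q, hq, rfl⟩ := hx
      exact ⟨[(g, q)], by simpa using hq, by simp⟩
    | one => exact ⟨[], by simp, by simp⟩
    | mul x y _ _ hx hy =>
      obtain ⟨l, hl, rfl⟩ := hx
      obtain ⟨m, hm, rfl⟩ := hy
      exact ⟨l ++ m, fun x hx => (List.mem_append.1 hx).elim (hl x) (hm x), by simp⟩

theorem twoPrimeSimple_of_mixable [Fintype G] (h : Mixable G (Set.Icc 0 1)) :
    TwoPrimeSimple G := by
  intro N hN hodd
  refine eq_top_of_inj N ?_ ((mixable_iff _).1 h)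
  rintro x ⟨g, q, hq, rfl⟩ z hz hxz
  exact lazy_inj Subgroup.index_ne_zero_of_finite (hz _ (Subgroup.pow_index_mem N g)) hq.1 hq.2
    (Or.inr hodd) hxz

theorem mixable_of_twoPrimeSimple [Fintype G] (h : TwoPrimeSimple G) (ε : ℝ) (hε : 0 < ε) :
    Mixable G (Set.Icc 0 ε ∪ {1 / 2}) := by
  rw [mixable_iff]
  have h1 := (primeSteps (G := G) {2} (by simpa using Nat.prime_two) (min ε (1 / 4))
    (lt_min hε (by norm_num)) ((min_le_right _ _).trans_lt (by norm_num))).2
    (fun N hN hp => h N hN (by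
      have := hp 2 rfl
      exact Nat.not_even_iff_odd.1 (fun h => this h.two_dvd)))
  refine Submonoid.closure_mono ?_ h1
  rintro x (⟨g, q, h0, h1, rfl⟩ | ⟨g, p, hpπ, rfl⟩)
  · exact ⟨g, q, Or.inl ⟨h0, h1.trans (min_le_left _ _)⟩, rfl⟩
  · obtain rfl : p = 2 := hpπ
    refine ⟨g, 1 / 2, Or.inr rfl, ?_⟩
    rw [powers, lazy, Finset.sum_range_succ, Finset.sum_range_one, pow_zero, pow_one, map_one,
      smul_add]
    norm_num

/-- symmetric steps suffice for every finite group -/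
theorem three [Fintype G] (ε : ℝ) (hε : 0 < ε) :
    uniform G ∈ Submonoid.closure {x : MonoidAlgebra ℝ G |
      (∃ (g : G) (q : ℝ), 0 ≤ q ∧ q ≤ ε ∧ x = lazy g q) ∨
      ∃ (h : G) (t : ℝ), 0 ≤ t ∧ t ≤ 1 / 2 ∧ x = symm h t} := by
  refine (criterion hε (fun g q h0 h1 => Or.inl ⟨g, q, h0, h1, rfl⟩) ?_).2 ?_
  · rintro x (⟨g, q, h0, h1, rfl⟩ | ⟨h, t, h0, h1, rfl⟩)
    · exact mass_of_sum (lazy_sum g q)
    · exact mass_of_sum (symm_sum h t)
  · intro L hL hn
    obtain ⟨g, y, hy, hgy⟩ := hn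
    have hg := pow_orderOf_eq_one g
    obtain ⟨h, t, h0, h1, v, hv, hv0, hx⟩ := exists_symm (orderOf_pos g) hg
      (y - MonoidAlgebra.of ℝ G g * y) (sub_ne_zero.2 hgy.symm) (by
        have h4 : (∑ i ∈ Finset.range (orderOf g), MonoidAlgebra.of ℝ G (g ^ i)) *
            (1 - MonoidAlgebra.of ℝ G g) = 1 - MonoidAlgebra.of ℝ G (g ^ (orderOf g)) := by
          simp only [map_pow]
          exact geom_sum_mul_neg _ _
        rw [← Finset.sum_mul, show y - MonoidAlgebra.of ℝ G g * y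
          = (1 - MonoidAlgebra.of ℝ G g) * y by rw [sub_mul, one_mul], ← mul_assoc, h4, hg,
          map_one, sub_self, zero_mul]) L
      (L.sub_mem hy (L.smul_mem (MonoidAlgebra.of ℝ G g) hy))
    exact ⟨symm h t, Or.inr ⟨h, t, h0, h1, rfl⟩, v, hv, hv0, hx⟩

end Pool.Agent.H17.Mix
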