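import Pool.Agent.H17.Mix.Conv

/-! Symmetric steps with three values. -/

set_option autoImplicit false

open Topology Filter Real

namespace Pool.Agent.H17.Mix

universe u

variable {G : Type u} [Group G]

theorem symm_sum [Fintype G] (g : G) (t : ℝ) :
    symm g t * ∑ h, MonoidAlgebra.of ℝ G h = ∑ h, MonoidAlgebra.of ℝ G h := by
  rw [symm, add_mul, add_mul, smul_mul_assoc, smul_mul_assoc, smul_mul_assoc, of_mul_sum,
    of_mul_sum, one_mul, ← add_smul, ← add_smul]
  rw [show 1 - 2 * t + t + t = (1 : ℝ) by ring, one_smul]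

theorem sum_cos_zero {n i : ℕ} (hi : 0 < i) (hin : i < n) :
    ∑ j ∈ Finset.range n, cos (j * (2 * π * i / n)) = 0 := by
  have hn : (n : ℂ) ≠ 0 := by
    have : n ≠ 0 := by omega
    exact_mod_cast this
  set ζ : ℂ := Complex.exp (((2 * π * i / n : ℝ) : ℂ) * Complex.I) with hζ
  have h1 : ζ ^ n = 1 := by
    rw [hζ, ← Complex.exp_nat_mul, Complex.exp_eq_one_iff]
    refine ⟨i, ?_⟩
    push_cast
    field_simp
  have h2 : ζ ≠ 1 := by
    intro h
    rw [hζ, Complex.exp_eq_one_iff] at h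
    obtain ⟨k, hk⟩ := h
    have hpi : (π : ℂ) ≠ 0 := by exact_mod_cast Real.pi_ne_zero
    have h3 : (i : ℂ) = k * n := by
      push_cast at hk
      field_simp at hk
      linear_combination hk
    have h4 : (i : ℤ) = k * n := by exact_mod_cast h3
    have h5 : 0 < k := by
      by_contra hc
      push Not at hc
      nlinarith
    nlinarith
  have h3 : ∑ j ∈ Finset.range n, ζ ^ j = 0 := by
    have := geom_sum_mul ζ n
    rw [h1, sub_self] at this
    exact (mul_eq_zero.1 this).resolve_right (sub_ne_zero.2 h2)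
  have h4 := congrArg Complex.re h3
  rw [Complex.re_sum, Complex.zero_re] at h4
  rw [← h4]
  refine Finset.sum_congr rfl fun j _ => ?_
  rw [hζ, ← Complex.exp_nat_mul, ← mul_assoc, ← Complex.ofReal_natCast, ← Complex.ofReal_mul,
    Complex.exp_ofReal_mul_I_re]

/-- a Fourier component of `w` for the action of `g` -/
noncomputable def Fo (g : G) (w : MonoidAlgebra ℝ G) (n : ℕ) (θ β : ℝ) : MonoidAlgebra ℝ G :=
  ∑ i ∈ Finset.range n, cos (i * θ + β) • (MonoidAlgebra.of ℝ G (g ^ i) * w)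

theorem of_mul_Fo {g : G} (w : MonoidAlgebra ℝ G) {n : ℕ} (hg : g ^ n = 1) {θ : ℝ}
    (hθ : ∀ x, cos (n * θ + x) = cos x) (β : ℝ) :
    MonoidAlgebra.of ℝ G g * Fo g w n θ β = Fo g w n θ (β - θ) := by
  set F : ℕ → MonoidAlgebra ℝ G :=
    fun i => cos (i * θ + (β - θ)) • (MonoidAlgebra.of ℝ G (g ^ i) * w) with hF
  have h1 : MonoidAlgebra.of ℝ G g * Fo g w n θ β = ∑ i ∈ Finset.range n, F (i + 1) := by
    rw [Fo, Finset.mul_sum]
    refine Finset.sum_congr rfl fun i _ => ?_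
    rw [hF, mul_smul_comm, ← mul_assoc, ← map_mul, ← pow_succ']
    congr 2
    push_cast
    ring
  have h2 : F n = F 0 := by
    simp only [hF, hg, hθ]
    simp
  have h3 := Finset.sum_range_succ F n
  have h4 := Finset.sum_range_succ' F n
  rw [h1]
  rw [h3, h2] at h4
  exact (add_right_cancel h4).symm

theorem pow_mul_Fo {g : G} (w : MonoidAlgebra ℝ G) {n : ℕ} (hg : g ^ n = 1) {θ : ℝ}
    (hθ : ∀ x, cos (n * θ + x) = cos x) (c : ℕ) (β : ℝ) :
    MonoidAlgebra.of ℝ G (g ^ c) * Fo g w n θ β = Fo g w n θ (β - c * θ) := by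
  induction c with
  | zero => rw [pow_zero, map_one, one_mul]; simp
  | succ c ih =>
    rw [pow_succ', map_mul, mul_assoc, ih, of_mul_Fo w hg hθ]
    congr 1
    push_cast
    ring

theorem Fo_add_Fo {g : G} (w : MonoidAlgebra ℝ G) (n : ℕ) (θ α : ℝ) :
    Fo g w n θ (-α) + Fo g w n θ α = (2 * cos α) • Fo g w n θ 0 := by
  rw [Fo, Fo, Fo, ← Finset.sum_add_distrib, Finset.smul_sum]
  refine Finset.sum_congr rfl fun i _ => ?_
  rw [← add_smul, smul_smul, add_zero, ← sub_eq_add_neg, cos_sub, cos_add]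
  congr 1
  ring

theorem symm_mul_Fo {g : G} (w : MonoidAlgebra ℝ G) {n : ℕ} (hg : g ^ n = 1) {θ : ℝ}
    (hθ : ∀ x, cos (n * θ + x) = cos x) (c : ℕ) (t : ℝ)
    (ht : 1 - 2 * t + 2 * t * cos (c * θ) = 0) :
    symm (g ^ c) t * Fo g w n θ 0 = 0 := by
  have h1 := pow_mul_Fo w hg hθ c 0
  have h2 := pow_mul_Fo w hg hθ c (c * θ)
  rw [sub_self] at h2
  rw [zero_sub] at h1
  have h3 : MonoidAlgebra.of ℝ G (g ^ c)⁻¹ * Fo g w n θ 0 = Fo g w n θ (c * θ) := by
    rw [← h2, ← mul_assoc, ← map_mul, inv_mul_cancel, map_one, one_mul]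
  rw [symm, add_mul, add_mul, smul_mul_assoc, smul_mul_assoc, smul_mul_assoc, h1, h3, one_mul,
    add_assoc, ← smul_add, Fo_add_Fo, smul_smul, ← add_smul]
  rw [show 1 - 2 * t + t * (2 * cos (c * θ)) = 0 by linarith, zero_smul]

theorem exists_symm {g : G} {n : ℕ} (hn : 0 < n) (hg : g ^ n = 1) (w : MonoidAlgebra ℝ G)
    (hw : w ≠ 0) (hs : ∑ i ∈ Finset.range n, MonoidAlgebra.of ℝ G (g ^ i) * w = 0)
    (L : Submodule (MonoidAlgebra ℝ G) (MonoidAlgebra ℝ G)) (hwL : w ∈ L) :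
    ∃ (h : G) (t : ℝ), 0 ≤ t ∧ t ≤ 1 / 2 ∧ ∃ v ∈ L, v ≠ 0 ∧ symm h t * v = 0 := by
  have hn' : (n : ℝ) ≠ 0 := by positivity
  have hper : ∀ (j : ℕ) (x : ℝ), cos (n * (2 * π * j / n) + x) = cos x := fun j x => by
    rw [show (n : ℝ) * (2 * π * j / n) + x = x + j * (2 * π) by field_simp; ring]
    exact cos_add_nat_mul_two_pi x j
  -- the sum of the Fourier components
  have hsum : ∑ j ∈ Finset.range n, Fo g w n (2 * π * j / n) 0 = (n : ℝ) • w := by
    simp only [Fo, add_zero]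
    rw [Finset.sum_comm]
    rw [Finset.sum_eq_single 0]
    · simp only [Nat.cast_zero, zero_mul, cos_zero, one_smul, pow_zero, map_one, one_mul,
        Finset.sum_const, Finset.card_range]
      rw [Nat.cast_smul_eq_nsmul ℝ]
    · intro i hi hi0
      rw [← Finset.sum_smul]
      have h1 := sum_cos_zero (Nat.pos_of_ne_zero hi0) (Finset.mem_range.1 hi)
      have h2 : ∑ j ∈ Finset.range n, cos (i * (2 * π * j / n))
          = ∑ j ∈ Finset.range n, cos (j * (2 * π * i / n)) :=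
        Finset.sum_congr rfl fun j _ => by congr 1; ring
      rw [h2, h1, zero_smul]
    · intro h; exact absurd (Finset.mem_range.2 hn) h
  obtain ⟨j, hj, hj0⟩ : ∃ j ∈ Finset.range n, Fo g w n (2 * π * j / n) 0 ≠ 0 := by
    by_contra hc
    push Not at hc
    rw [Finset.sum_eq_zero hc] at hsum
    exact hw ((smul_eq_zero.1 hsum.symm).resolve_left hn')
  have hjpos : 0 < j := by
    rcases Nat.eq_zero_or_pos j with rfl | h
    · exfalso
      apply hj0
      simp only [Fo, Nat.cast_zero, mul_zero, zero_div, add_zero, cos_zero, one_smul]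
      exact hs
    · exact h
  obtain ⟨c, -, hc⟩ : ∃ c ∈ Finset.range n, cos (c * (2 * π * j / n)) ≤ 0 := by
    by_contra hc
    push Not at hc
    have h1 := sum_cos_zero hjpos (Finset.mem_range.1 hj)
    have h2 := Finset.sum_pos hc ⟨0, Finset.mem_range.2 hn⟩
    linarith
  set C := cos (c * (2 * π * j / n)) with hC
  have hC1 : 0 < 1 - C := by linarith
  refine ⟨g ^ c, 1 / (2 * (1 - C)), by positivity, ?_, Fo g w n (2 * π * j / n) 0, ?_, hj0,
    symm_mul_Fo w hg (hper j) c _ ?_⟩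
  · rw [div_le_div_iff₀ (by positivity) (by norm_num)]
    linarith
  · refine Submodule.sum_mem _ fun i _ => ?_
    have h1 : MonoidAlgebra.of ℝ G (g ^ i) * w ∈ L := L.smul_mem (MonoidAlgebra.of ℝ G (g ^ i)) hwL
    have h2 := L.smul_mem (algebraMap ℝ (MonoidAlgebra ℝ G) (cos (i * (2 * π * j / n) + 0))) h1
    rwa [algebraMap_smul] at h2
  · rw [← hC]
    field_simp
    ring

end Pool.Agent.H17.Mix
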