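import Pool.Agent.H17.Mix.Sub

/-! Transitive actions. -/

set_option autoImplicit false

open Topology Filter

namespace Pool.Agent.H17.Mix

universe u v

variable {G : Type u} [Group G] {X : Type v} [MulAction G X]

open Classical in
/-- the sum of the stabiliser of `x` -/
noncomputable def stab [Fintype G] (x : X) : MonoidAlgebra ℝ G :=
  ∑ h ∈ (Finset.univ.filter (fun h : G => h • x = x) : Finset G), MonoidAlgebra.of ℝ G h

theorem coeff_mul_stab [Fintype G] (s : MonoidAlgebra ℝ G) (x : X) (k : G) :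
    (s * stab x).coeff k = law s x (k • x) := by
  classical
  induction s using MonoidAlgebra.induction_on with
  | of g =>
    rw [law_of, stab, Finset.mul_sum, MonoidAlgebra.coeff_sum, Finsupp.finsetSum_apply]
    by_cases h : g • x = k • x
    · rw [if_pos h, Finset.sum_eq_single (g⁻¹ * k)]
      · rw [← map_mul, mul_inv_cancel_left]
        simp [MonoidAlgebra.of_apply]
      · intro b _ hb
        rw [← map_mul]
        have : g * b ≠ k := fun h1 => hb (by rw [← h1]; group)
        simp [MonoidAlgebra.of_apply, this]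
      · intro h1
        exfalso
        apply h1
        rw [Finset.mem_filter]
        exact ⟨Finset.mem_univ _, by rw [mul_smul, ← h, inv_smul_smul]⟩
    · rw [if_neg h]
      refine Finset.sum_eq_zero fun b hb => ?_
      rw [← map_mul]
      have : g * b ≠ k := fun h1 => h (by
        rw [← h1, mul_smul, (Finset.mem_filter.1 hb).2])
      simp [MonoidAlgebra.of_apply, this]
  | add s t hs ht => rw [add_mul, MonoidAlgebra.coeff_add, Finsupp.add_apply, hs, ht, law_add]
  | smul r s hs =>
    rw [smul_mul_assoc, MonoidAlgebra.coeff_smul, Finsupp.smul_apply, hs, law_smul, smul_eq_mul]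

theorem coeff_sigma [Fintype G] (k : G) :
    (∑ g, MonoidAlgebra.of ℝ G g).coeff k = 1 := by
  classical
  rw [MonoidAlgebra.coeff_sum, Finsupp.finsetSum_apply, Finset.sum_eq_single k]
  · simp [MonoidAlgebra.of_apply]
  · intro b _ hb
    simp [MonoidAlgebra.of_apply, hb]
  · intro h; exact absurd (Finset.mem_univ _) h

theorem of_mul_subUniform [Fintype G] (N : Subgroup G) {n : G} (hn : n ∈ N) :
    MonoidAlgebra.of ℝ G n * subUniform N = subUniform N := by
  classical
  rw [subUniform, mul_smul_comm]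
  congr 1
  rw [Finset.mul_sum]
  refine Finset.sum_equiv (Equiv.mulLeft n) (fun g => ?_) fun g _ => (map_mul _ _ _).symm
  simp only [Finset.mem_filter, Finset.mem_univ, true_and, Equiv.coe_mulLeft]
  exact (N.mul_mem_cancel_left hn).symm

theorem subUniform_comm [Fintype G] (N : Subgroup G) [N.Normal] (s : MonoidAlgebra ℝ G) :
    s * subUniform N = subUniform N * s := by
  classical
  induction s using MonoidAlgebra.induction_on with
  | of g =>
    rw [subUniform, mul_smul_comm, smul_mul_assoc]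
    congr 1
    rw [Finset.mul_sum, Finset.sum_mul]
    refine Finset.sum_equiv (MulAut.conj g).toEquiv (fun h => ?_) fun h _ => ?_
    · simp only [Finset.mem_filter, Finset.mem_univ, true_and, MulEquiv.toEquiv_eq_coe,
        EquivLike.coe_coe, MulAut.conj_apply]
      exact ⟨fun h1 => Subgroup.Normal.conj_mem inferInstance h h1 g, fun h1 => by
        have := Subgroup.Normal.conj_mem (H := N) inferInstance _ h1 g⁻¹
        simpa [mul_assoc] using this⟩
    · simp only [MulEquiv.toEquiv_eq_coe, EquivLike.coe_coe, MulAut.conj_apply]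
      rw [← map_mul, ← map_mul, inv_mul_cancel_right]
  | add s t hs ht => rw [add_mul, mul_add, hs, ht]
  | smul r s hs => rw [smul_mul_assoc, mul_smul_comm, hs]

theorem transitive_of_inj [Fintype G] [Fintype X] [MulAction.IsPretransitive G X]
    {F : Set (MonoidAlgebra ℝ G)} (N : Subgroup G) [N.Normal]
    (hinj : ∀ x ∈ F, ∀ z ∈ Inv N, x * z = 0 → z = 0)
    (hm : ∀ x ∈ F, x * ∑ g, MonoidAlgebra.of ℝ G g = ∑ g, MonoidAlgebra.of ℝ G g)
    (x₀ : X) (s : MonoidAlgebra ℝ G) (hs : s ∈ Submonoid.closure F)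
    (hlaw : ∀ y, law s x₀ y = 1 / (Fintype.card X : ℝ)) :
    ∀ y : X, ∃ n ∈ N, n • x₀ = y := by
  classical
  have hX : (0 : ℝ) < Fintype.card X := by
    have : Nonempty X := ⟨x₀⟩
    exact_mod_cast Fintype.card_pos
  set σ := ∑ g, MonoidAlgebra.of ℝ G g with hσ
  set c : ℝ := 1 / (Fintype.card X : ℝ) with hc
  have h1 : s * stab x₀ = c • σ := by
    ext k
    rw [coeff_mul_stab, hlaw, MonoidAlgebra.coeff_smul, Finsupp.smul_apply, hσ, coeff_sigma,
      smul_eq_mul, mul_one]
  have h3 : ∀ s ∈ Submonoid.closure F, s * σ = σ := fun s hs => by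
    induction hs using Submonoid.closure_induction with
    | mem x hx => exact hm x hx
    | one => rw [one_mul]
    | mul x y _ _ hx hy => rw [mul_assoc, hy, hx]
  have h4 : subUniform N * σ = σ := subUniform_mul N σ fun g _ => of_mul_sum g
  set z := subUniform N * stab x₀ - c • σ with hz
  have hzI : z ∈ Inv N := by
    intro n hn
    rw [hz, mul_sub, ← mul_assoc, of_mul_subUniform N hn, mul_smul_comm, hσ, of_mul_sum]
  have hsz : s * z = 0 := by
    rw [hz, mul_sub, ← mul_assoc, subUniform_comm, mul_assoc, h1, mul_smul_comm, mul_smul_comm,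
      h4, h3 s hs, sub_self]
  have hz0 : z = 0 := by
    by_contra hne
    obtain ⟨x, hx, y, hy, hy0, hxy⟩ := exists_factor hs (Inv N)
      (fun x _ z hz => mul_mem_Inv x hz) z hzI hne hsz
    exact hy0 (hinj x hx y hy hxy)
  intro y
  obtain ⟨k, rfl⟩ := MulAction.exists_smul_eq G x₀ y
  by_contra hcon
  push Not at hcon
  have h5 : (subUniform N * stab x₀).coeff k = c := by
    rw [sub_eq_zero.1 hz0, MonoidAlgebra.coeff_smul, Finsupp.smul_apply, hσ, coeff_sigma,
      smul_eq_mul, mul_one]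
  rw [coeff_mul_stab, subUniform, law_smul, law_sum, Finset.sum_eq_zero, mul_zero] at h5
  · have : 0 < c := by positivity
    linarith
  · intro n hn
    rw [law_of, if_neg (hcon n (Finset.mem_filter.1 hn).2)]

/-- the subgroup generated by the elements of `p`-power order, `p ∈ π` -/
def Opi (G : Type u) [Group G] (π : Set ℕ) : Subgroup G :=
  Subgroup.closure {g | ∃ p ∈ π, ∃ k : ℕ, g ^ p ^ k = 1}

instance (π : Set ℕ) : (Opi G π).Normal where
  conj_mem := fun n hn g => by
    induction hn using Subgroup.closure_induction with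
    | mem x hx =>
      obtain ⟨p, hp, k, hk⟩ := hx
      refine Subgroup.subset_closure ⟨p, hp, k, ?_⟩
      rw [conj_pow, hk, mul_one, mul_inv_cancel]
    | one => rw [mul_one, mul_inv_cancel]; exact one_mem _
    | mul x y _ _ hx hy =>
      rw [show g * (x * y) * g⁻¹ = (g * x * g⁻¹) * (g * y * g⁻¹) by group]
      exact mul_mem hx hy
    | inv x _ hx =>
      rw [show g * x⁻¹ * g⁻¹ = (g * x * g⁻¹)⁻¹ by group]
      exact inv_mem hx

theorem not_dvd_index_Opi [Finite G] (π : Set ℕ) (hπ : ∀ p ∈ π, p.Prime) :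
    ∀ p ∈ π, ¬ p ∣ (Opi G π).index := by
  intro p hp hdvd
  have : Fact p.Prime := ⟨hπ p hp⟩
  obtain ⟨x, hx⟩ := exists_prime_orderOf_dvd_card' (G := G ⧸ Opi G π) p hdvd
  obtain ⟨g, rfl⟩ := QuotientGroup.mk'_surjective _ x
  obtain ⟨a, b, hb, hab⟩ := Nat.exists_eq_pow_mul_and_not_dvd (orderOf_pos g).ne' p
    (hπ p hp).ne_one
  have h1 : g ^ b ∈ Opi G π := Subgroup.subset_closure ⟨p, hp, a, by
    rw [← pow_mul, mul_comm, ← hab, pow_orderOf_eq_one]⟩
  have h2 : (QuotientGroup.mk' (Opi G π) g) ^ b = 1 := by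
    rw [← map_pow]
    exact (QuotientGroup.eq_one_iff _).2 h1
  rw [← orderOf_dvd_iff_pow_eq_one, hx] at h2
  exact hb h2

theorem Opi_simple [Finite G] (π : Set ℕ) (hπ : ∀ p ∈ π, p.Prime) (M : Subgroup (Opi G π))
    (hM : M.Normal) (h : ∀ p ∈ π, ¬ p ∣ M.index) : M = ⊤ := by
  have h1 : Opi G π ≤ M.map (Opi G π).subtype := by
    refine (Subgroup.closure_le _).2 ?_
    rintro g ⟨p, hp, k, hk⟩
    have hg : g ∈ Opi G π := Subgroup.subset_closure ⟨p, hp, k, hk⟩
    refine ⟨⟨g, hg⟩, ?_, rfl⟩
    have h2 : orderOf (QuotientGroup.mk' M ⟨g, hg⟩) ∣ p ^ k := by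
      rw [orderOf_dvd_iff_pow_eq_one, ← map_pow]
      have : (⟨g, hg⟩ : Opi G π) ^ p ^ k = 1 := Subtype.ext hk
      rw [this, map_one]
    have h3 : orderOf (QuotientGroup.mk' M ⟨g, hg⟩) ∣ M.index := by
      rw [orderOf_dvd_iff_pow_eq_one, ← map_pow]
      exact (QuotientGroup.eq_one_iff _).2 (Subgroup.pow_index_mem M _)
    have h4 : Nat.Coprime (p ^ k) M.index :=
      Nat.Coprime.pow_left k ((Nat.Prime.coprime_iff_not_dvd (hπ p hp)).2 (h p hp))
    have h5 := Nat.dvd_gcd h2 h3
    rw [h4, Nat.dvd_one, orderOf_eq_one_iff] at h5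
    exact (QuotientGroup.eq_one_iff _).1 h5
  rw [eq_top_iff]
  rintro ⟨g, hg⟩ -
  obtain ⟨m, hm, hmg⟩ := h1 hg
  have : m = ⟨g, hg⟩ := Subtype.ext hmg
  rwa [← this]

theorem exists_Opi_uniform [Fintype G] (π : Set ℕ) (hπ : ∀ p ∈ π, p.Prime) (ε : ℝ) (hε : 0 < ε)
    (h2 : ε < 1 / 2) :
    ((Nat.card (Opi G π) : ℝ)⁻¹ • ∑ᶠ n : Opi G π, MonoidAlgebra.of ℝ G (n : G))
      ∈ Submonoid.closure (PrimeSteps G π ε) := by
  classical
  have hu := (primeSteps (G := Opi G π) π hπ ε hε h2).2 fun N hN h => Opi_simple π hπ N hN h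
  set φ := MonoidAlgebra.mapDomainAlgHom ℝ ℝ (Opi G π).subtype with hφ
  have hof : ∀ n : Opi G π, φ (MonoidAlgebra.of ℝ _ n) = MonoidAlgebra.of ℝ G (n : G) := by
    intro n
    simp [hφ, MonoidAlgebra.of_apply]
  have h3 : ∀ x ∈ Submonoid.closure (PrimeSteps (Opi G π) π ε),
      φ x ∈ Submonoid.closure (PrimeSteps G π ε) := by
    intro x hx
    induction hx using Submonoid.closure_induction with
    | mem x hx =>
      refine Submonoid.subset_closure ?_
      rcases hx with ⟨g, q, h0, h1, rfl⟩ | ⟨g, p, hp, rfl⟩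
      · refine Or.inl ⟨g, q, h0, h1, ?_⟩
        rw [lazy, lazy, map_add, map_smul, map_smul, map_one, hof]
      · refine Or.inr ⟨g, p, hp, ?_⟩
        rw [powers, powers, map_smul, map_sum]
        congr 1
        refine Finset.sum_congr rfl fun i _ => ?_
        rw [hof, SubmonoidClass.coe_pow]
    | one => rw [map_one]; exact one_mem _
    | mul x y _ _ hx hy => rw [map_mul]; exact mul_mem hx hy
  have h4 := h3 _ hu
  rw [uniform, map_smul, map_sum] at h4
  rw [finsum_eq_sum_of_fintype, Nat.card_eq_fintype_card]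
  simpa only [hof] using h4

end Pool.Agent.H17.Mix
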